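import Pool.Agent.P.MP_317811_al.Sup

set_option autoImplicit false
open Pointwise

namespace Pool.Agent.Results.MP_317811_al.SuperExp

/-- A colouring of an infinite type with finitely many colours can be changed so that every colour
is used, each new colour class being a part of the old one or a single point. -/
theorem recolour {X : Type} [Infinite X] {n : ℕ} (c : X → Fin n) :
    ∃ d : X → Fin n, Function.Surjective d ∧
      ∀ i, (∀ y, d y = i → c y = i) ∨ ∃ p, ∀ y, d y = i → y = p := by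
  classical
  obtain ⟨j, hj⟩ := Finite.exists_infinite_fiber c
  let e : Fin n → X := fun i => (Infinite.natEmbedding (c ⁻¹' {j}) i : X)
  have he : Function.Injective e := fun a b h =>
    Fin.val_injective ((Infinite.natEmbedding (c ⁻¹' {j})).injective (Subtype.val_injective h))
  have hc : ∀ i, c (e i) = j := fun i => (Infinite.natEmbedding (c ⁻¹' {j}) i).2
  let d : X → Fin n := fun y =>
    if h : ∃ i, e i = y ∧ ∀ z, c z ≠ i then h.choose else c y
  have hd : ∀ i, (∀ z, c z ≠ i) → d (e i) = i := fun i hi => by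
    have h : ∃ k, e k = e i ∧ ∀ z, c z ≠ k := ⟨i, rfl, hi⟩
    simp only [d, dif_pos h]
    exact he h.choose_spec.1
  refine ⟨d, fun i => ?_, fun i => ?_⟩
  · by_cases hi : ∀ z, c z ≠ i
    · exact ⟨e i, hd i hi⟩
    · by_cases hij : i = j
      · refine ⟨e j, ?_⟩
        have h : ¬ ∃ k, e k = e j ∧ ∀ z, c z ≠ k := by
          rintro ⟨k, hk, hz⟩
          exact hz (e j) ((hc j).trans (he hk).symm)
        simp only [d, dif_neg h]
        exact (hc j).trans hij.symm
      · push Not at hi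
        obtain ⟨z, hz⟩ := hi
        refine ⟨z, ?_⟩
        have h : ¬ ∃ k, e k = z ∧ ∀ z, c z ≠ k := by
          rintro ⟨k, hk, -⟩
          exact hij (hz.symm.trans (hk ▸ hc k))
        simp only [d, dif_neg h]
        exact hz
  · by_cases hi : ∀ z, c z ≠ i
    · refine Or.inr ⟨e i, fun y hy => ?_⟩
      by_cases h : ∃ k, e k = y ∧ ∀ z, c z ≠ k
      · simp only [d, dif_pos h] at hy
        exact (hy ▸ h.choose_spec.1).symm
      · simp only [d, dif_neg h] at hy
        exact absurd hy (hi y)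
    · refine Or.inl fun y hy => ?_
      by_cases h : ∃ k, e k = y ∧ ∀ z, c z ≠ k
      · simp only [d, dif_pos h] at hy
        exact absurd (hy ▸ h.choose_spec.2) hi
      · simpa only [d, dif_neg h] using hy

/-- For all `2 ≤ k ≤ n` the free group of countable rank has a partition into `n` nonempty cells
such that `A⁻¹ * A * F` is never the whole group when `A` is a cell and `F` has at most
`1 + k + ⋯ + k ^ (n - k - 1) + (k - 1)` elements. -/
theorem result (n k : ℕ) (hk : 2 ≤ k) (hn : k ≤ n) :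
    ∃ A : Fin n → Set (FreeGroup ℕ),
      Pairwise (fun i j => Disjoint (A i) (A j)) ∧ (⋃ i, A i) = Set.univ ∧
      (∀ i, (A i).Nonempty) ∧
      ∀ (i : Fin n) (F : Finset (FreeGroup ℕ)),
        F.card ≤ ∑ j ∈ Finset.range (n - k), k ^ j + (k - 1) →
        (A i)⁻¹ * A i * (F : Set (FreeGroup ℕ)) ≠ Set.univ := by
  obtain ⟨x, hx⟩ := Pool.Agent.P.MP_317811_al.big_colouring hk hn
  obtain ⟨d, hd, hs⟩ := recolour fun y : FreeGroup ℕ => x y⁻¹
  refine ⟨fun j => {y | d y = j}, fun i j hij => ?_, ?_, hd, fun i F hF hU => ?_⟩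
  · exact Set.disjoint_left.2 fun y hi hj => hij ((show d y = i from hi).symm.trans hj)
  · exact Set.eq_univ_of_forall fun y => Set.mem_iUnion.2 ⟨d y, rfl⟩
  have hmem : ∀ g, g ∈ ({y | d y = i} : Set (FreeGroup ℕ))⁻¹ * {y | d y = i} *
      (F : Set (FreeGroup ℕ)) := fun g => by
    rw [hU]; trivial
  rcases hs i with h | ⟨p, h⟩
  · obtain ⟨g, hg⟩ := hx i F hF
    obtain ⟨_, ⟨a, ha, b, hb, rfl⟩, f, hf, hgf⟩ := hmem g
    refine hg (f⁻¹ * b⁻¹) f hf ⟨?_, ?_⟩
    · have h1 : g * (f⁻¹ * b⁻¹) = a := by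
        rw [← hgf]; group
      rw [h1]; simpa using h a⁻¹ ha
    · have h1 : f * (f⁻¹ * b⁻¹) = b⁻¹ := by group
      rw [h1]; exact h b hb
  · obtain ⟨g, hg⟩ := Infinite.exists_notMem_finset F
    obtain ⟨_, ⟨a, ha, b, hb, rfl⟩, f, hf, hgf⟩ := hmem g
    have h1 : a = p⁻¹ := by rw [← h a⁻¹ ha, inv_inv]
    refine hg ?_
    rw [← hgf, h1, h b hb]
    simpa using hf

end Pool.Agent.Results.MP_317811_al.SuperExp
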